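import Pool.Agent.Y772.ND.Stm3

/-! # Project DZ, part MER: from positive lower density of primes to a Mertens lower bound -/

set_option autoImplicit false

open Filter

namespace Pool.Agent.Y319.ND

open Pool.Agent.Y772.ND

noncomputable section

open Classical in
/-- the number of the primes of `S` up to `n` -/
def cA (S : Set ℕ) (n : ℕ) : ℝ :=
  (((Finset.range (n + 1)).filter (fun p => p.Prime ∧ p ∈ S)).card : ℝ)

open Classical in
/-- the sum -/
def gS (S : Set ℕ) (n : ℕ) : ℝ :=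
  ∑ p ∈ (Finset.Icc 1 n).filter (fun p => p.Prime ∧ p ∈ S), Real.log p / p

/-- the weight -/
def fw (n : ℕ) : ℝ := Real.log n / n

open Classical in
theorem cA_succ (S : Set ℕ) (n : ℕ) :
    cA S (n + 1) = cA S n + if (n + 1).Prime ∧ (n + 1) ∈ S then 1 else 0 := by
  unfold cA
  rw [Finset.card_filter, Finset.card_filter, Finset.sum_range_succ]
  push_cast
  rfl

open Classical in
theorem gS_succ (S : Set ℕ) (n : ℕ) :
    gS S (n + 1) = gS S n + if (n + 1).Prime ∧ (n + 1) ∈ S then fw (n + 1) else 0 := by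
  unfold gS fw
  rw [Finset.sum_filter, Finset.sum_filter, Finset.sum_Icc_succ_top (by omega)]

theorem cA_nonneg (S : Set ℕ) (n : ℕ) : 0 ≤ cA S n := Nat.cast_nonneg _

theorem fw_nonneg (n : ℕ) : 0 ≤ fw n := by
  unfold fw
  exact div_nonneg (Real.log_natCast_nonneg n) (Nat.cast_nonneg n)

/-- one step of the summation by parts -/
theorem step (S : Set ℕ) (n : ℕ) :
    gS S (n + 1) - cA S (n + 1) * fw (n + 1) =
      (gS S n - cA S n * fw n) + cA S n * (fw n - fw (n + 1)) := by
  rw [gS_succ, cA_succ]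
  split_ifs <;> ring

theorem fw_diff {n : ℕ} (hn : 16 ≤ n) :
    Real.log n / (2 * n * (n + 1)) ≤ fw n - fw (n + 1) := by
  have h0 : (16 : ℝ) ≤ n := by exact_mod_cast hn
  have hpos : (0 : ℝ) < n := by linarith
  have h1 : 2 ≤ Real.log n := by
    have h2 : Real.log 16 ≤ Real.log n := Real.log_le_log (by norm_num) h0
    have h3 : Real.log 16 = 4 * Real.log 2 := by
      rw [show (16 : ℝ) = 2 ^ 4 by norm_num, Real.log_pow]
      norm_num
    have h4 := Real.log_two_gt_d9
    linarith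
  have h2 : (n : ℝ) * (Real.log (n + 1) - Real.log n) ≤ 1 := by
    rw [← Real.log_div (by positivity) hpos.ne']
    have h3 : Real.log (((n : ℝ) + 1) / n) ≤ ((n : ℝ) + 1) / n - 1 :=
      Real.log_le_sub_one_of_pos (by positivity)
    have h4 : ((n : ℝ) + 1) / n - 1 = 1 / n := by
      field_simp
      ring
    rw [h4] at h3
    calc (n : ℝ) * Real.log (((n : ℝ) + 1) / n) ≤ n * (1 / n) :=
          mul_le_mul_of_nonneg_left h3 hpos.le
      _ = 1 := by field_simp
  unfold fw
  push_cast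
  have h5 : Real.log n / n - Real.log (n + 1) / (n + 1) =
      (Real.log n - n * (Real.log (n + 1) - Real.log n)) / (n * (n + 1)) := by
    field_simp
    ring
  rw [h5, div_le_div_iff₀ (by positivity) (by positivity)]
  have h6 : Real.log n ≤ 2 * (Real.log n - n * (Real.log (n + 1) - Real.log n)) := by linarith
  have h7 : (0 : ℝ) ≤ n * (n + 1) := by positivity
  calc Real.log n * (n * (n + 1)) ≤
        (2 * (Real.log n - n * (Real.log (n + 1) - Real.log n))) * (n * (n + 1)) :=
        mul_le_mul_of_nonneg_right h6 h7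
    _ = _ := by ring

theorem pi_low {n : ℕ} (hn : 16 ≤ n) :
    (n : ℝ) / (4 * Real.log n) ≤ (Nat.primeCounting n : ℝ) := by
  have h0 : (16 : ℝ) ≤ n := by exact_mod_cast hn
  have hl : 0 < Real.log n := Real.log_pos (by linarith)
  refine le_trans ?_ (Chebyshev.pi_ge n)
  have h1 : Real.log ((n : ℝ) + 1) ≤ ((n : ℝ) + 1) / 8 - 1 + 3 * Real.log 2 := by
    have h2 : Real.log (((n : ℝ) + 1) / 8) ≤ ((n : ℝ) + 1) / 8 - 1 :=
      Real.log_le_sub_one_of_pos (by positivity)
    rw [Real.log_div (by positivity) (by norm_num)] at h2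
    have h3 : Real.log 8 = 3 * Real.log 2 := by
      rw [show (8 : ℝ) = 2 ^ 3 by norm_num, Real.log_pow]
      norm_num
    linarith
  rw [div_le_div_iff₀ (by positivity) hl]
  have h4 := Real.log_two_gt_d9
  have h5 := Real.log_two_lt_d9
  have h6 : (n : ℝ) / 4 ≤ n * Real.log 2 - Real.log (n + 1) := by nlinarith
  calc (n : ℝ) * Real.log n = (n / 4) * (4 * Real.log n) := by ring
    _ ≤ _ := mul_le_mul_of_nonneg_right h6 (by positivity)

theorem t_MER : P_MER := by
  intro S δ hδ h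
  obtain ⟨N1, hN1⟩ := eventually_atTop.1 h
  set N0 : ℕ := max N1 16 with hN0
  have hlow : ∀ n : ℕ, N0 ≤ n → δ / (8 * ((n : ℝ) + 1)) ≤ cA S n * (fw n - fw (n + 1)) := by
    intro n hn
    have hn16 : 16 ≤ n := (le_max_right _ _).trans hn
    have h0 : (16 : ℝ) ≤ n := by exact_mod_cast hn16
    have hl : 0 < Real.log n := Real.log_pos (by linarith)
    have h1 : δ * (n / (4 * Real.log n)) ≤ cA S n :=
      (mul_le_mul_of_nonneg_left (pi_low hn16) hδ.le).trans
        (hN1 n ((le_max_left _ _).trans hn))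
    have h2 := fw_diff hn16
    have h3 : (0 : ℝ) ≤ Real.log n / (2 * n * (n + 1)) := by positivity
    calc δ / (8 * ((n : ℝ) + 1)) =
          (δ * (n / (4 * Real.log n))) * (Real.log n / (2 * n * (n + 1))) := by
          field_simp
          ring
      _ ≤ cA S n * (fw n - fw (n + 1)) :=
          mul_le_mul h1 h2 h3 (cA_nonneg S n)
  have hind : ∀ n : ℕ, N0 ≤ n → (gS S N0 - cA S N0 * fw N0) +
      δ / 8 * (Real.log ((n : ℝ) + 1) - Real.log ((N0 : ℝ) + 1)) ≤ gS S n - cA S n * fw n := by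
    intro n hn
    induction n, hn using Nat.le_induction with
    | base => simp
    | succ n hn ih =>
      rw [step]
      have h1 := hlow n hn
      have h2 : Real.log (((n + 1 : ℕ) : ℝ) + 1) - Real.log ((n : ℝ) + 1) ≤ 1 / ((n : ℝ) + 1) := by
        rw [← Real.log_div (by positivity) (by positivity)]
        have h3 : Real.log ((((n + 1 : ℕ) : ℝ) + 1) / ((n : ℝ) + 1)) ≤
            (((n + 1 : ℕ) : ℝ) + 1) / ((n : ℝ) + 1) - 1 :=
          Real.log_le_sub_one_of_pos (by positivity)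
        refine h3.trans (le_of_eq ?_)
        push_cast
        field_simp
        ring
      have h4 : δ / 8 * (Real.log (((n + 1 : ℕ) : ℝ) + 1) - Real.log ((n : ℝ) + 1)) ≤
          δ / (8 * ((n : ℝ) + 1)) := by
        calc _ ≤ δ / 8 * (1 / ((n : ℝ) + 1)) := mul_le_mul_of_nonneg_left h2 (by positivity)
          _ = _ := by field_simp
      linarith
  refine ⟨δ / 16, by positivity, ?_⟩
  set C : ℝ := (gS S N0 - cA S N0 * fw N0) - δ / 8 * Real.log ((N0 : ℝ) + 1) with hC
  have hlog : ∀ᶠ x : ℝ in atTop, -C * (16 / δ) ≤ Real.log x :=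
    Real.tendsto_log_atTop.eventually_ge_atTop _
  filter_upwards [hlog, eventually_ge_atTop (N0 : ℝ), eventually_ge_atTop (1 : ℝ)] with x h1 h2 h3
  have h4 : N0 ≤ ⌊x⌋₊ := Nat.le_floor h2
  have h5 := hind ⌊x⌋₊ h4
  have h6 : Real.log x ≤ Real.log ((⌊x⌋₊ : ℝ) + 1) :=
    Real.log_le_log (by linarith) (Nat.lt_floor_add_one x).le
  have h7 : 0 ≤ cA S ⌊x⌋₊ * fw ⌊x⌋₊ := mul_nonneg (cA_nonneg _ _) (fw_nonneg _)
  have h8 : δ / 8 * Real.log x ≤ δ / 8 * Real.log ((⌊x⌋₊ : ℝ) + 1) :=
    mul_le_mul_of_nonneg_left h6 (by positivity)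
  have h9 : -C ≤ δ / 16 * Real.log x := by
    have h10 := mul_le_mul_of_nonneg_left h1 (by positivity : (0 : ℝ) ≤ δ / 16)
    have h11 : δ / 16 * (-C * (16 / δ)) = -C := by field_simp
    rw [h11] at h10
    exact h10
  change δ / 16 * Real.log x ≤ gS S ⌊x⌋₊
  rw [mul_sub] at h5
  linarith

end

end Pool.Agent.Y319.ND

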